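import Mathlib

set_option autoImplicit false

namespace Pool.Agent.H.MP_ab3f56_an

open MeasureTheory Finset Filter Topology AddCircle

variable {T : ℝ} [hT : Fact (0 < T)]

theorem ci {E : Type} [NormedAddCommGroup E] {f : AddCircle T → E} (hf : Continuous f)
    (μ : Measure (AddCircle T)) [IsFiniteMeasure μ] : Integrable f μ :=
  hf.integrable_of_hasCompactSupport (HasCompactSupport.of_compactSpace f)

theorem int_fourier (n : ℤ) :
    ∫ x : AddCircle T, fourier n x ∂haarAddCircle = if n = 0 then 1 else 0 := by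
  have := congrFun (fourierCoeff_fourier (T := T) n) 0
  simpa [fourierCoeff, Pi.single_apply, eq_comm, -fourier_apply, fourier_zero] using this

omit hT in
theorem nf (n : ℤ) (x : AddCircle T) : ‖fourier n x‖ = 1 := Circle.norm_coe _

/-- representable frequencies -/
def Rep (θ : ℕ → ℤ) (n : ℕ) (m : ℤ) : Prop :=
  ∃ ε : ℕ → ℤ, (∀ j, |ε j| ≤ 1) ∧ m = ∑ j ∈ range n, ε j * θ j

theorem Rep.step {θ : ℕ → ℤ} {n : ℕ} {m : ℤ} (h : Rep θ n m) {s : ℤ} (hs : |s| ≤ 1) :
    Rep θ (n + 1) (m + s * θ n) := by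
  obtain ⟨ε, h1, rfl⟩ := h
  refine ⟨Function.update ε n s, fun j => ?_, ?_⟩
  · rcases eq_or_ne j n with rfl | h
    · simpa
    · simpa [h] using h1 j
  · rw [sum_range_succ, Function.update_self]
    congr 1
    exact sum_congr rfl fun j hj => by rw [Function.update_of_ne (mem_range.1 hj).ne]

theorem Rep.mono {θ : ℕ → ℤ} {n n' : ℕ} {m : ℤ} (h : Rep θ n m) (hn : n ≤ n') : Rep θ n' m := by
  induction n', hn using Nat.le_induction with
  | base => exact h
  | succ k _ ih => simpa using ih.step (s := 0) (by simp)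

theorem Rep.zero (θ : ℕ → ℤ) (n : ℕ) : Rep θ n 0 := ⟨0, by simp, by simp⟩

theorem Rep.fin (θ : ℕ → ℤ) (n : ℕ) : {m | Rep θ n m}.Finite := by
  refine (Set.finite_Icc (-∑ j ∈ range n, |θ j|) (∑ j ∈ range n, |θ j|)).subset ?_
  rintro _ ⟨ε, h, rfl⟩
  refine abs_le.1 ((abs_sum_le_sum_abs _ _).trans (sum_le_sum fun j _ => ?_))
  rw [abs_mul]
  exact mul_le_of_le_one_left (abs_nonneg _) (h j)

theorem dissoc {θ : ℕ → ℤ} (h1 : ∀ j, 3 ^ j ∣ θ j) (h2 : ∀ j, ∀ s, 3 ^ (j + 1) ∣ s * θ j → 3 ∣ s)
    {n : ℕ} {m m' : ℤ} (hm : Rep θ n m) (hm' : Rep θ n m') {s : ℤ} (hs : |s| ≤ 2)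
    (h : m = m' + s * θ n) : s = 0 := by
  obtain ⟨ε, e1, rfl⟩ := hm
  obtain ⟨ε', e2, rfl⟩ := hm'
  let η : ℕ → ℤ := fun j => if j = n then s else ε' j - ε j
  have b : ∀ j, |η j| ≤ 2 := fun j => by
    simp only [η]
    split_ifs
    · exact hs
    · linarith [abs_sub (ε' j) (ε j), e1 j, e2 j]
  have z : ∑ j ∈ range (n + 1), η j * θ j = 0 := by
    rw [sum_range_succ, sum_congr rfl fun j hj => by
      rw [show η j = ε' j - ε j from if_neg (mem_range.1 hj).ne, sub_mul], sum_sub_distrib]
    simp only [η, if_true]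
    linarith
  have : ∀ j, j < n + 1 → η j = 0 := by
    intro j
    induction j using Nat.strong_induction_on with
    | _ j ih =>
      intro hj
      rw [← add_sum_erase _ _ (mem_range.2 hj)] at z
      have d : 3 ^ (j + 1) ∣ ∑ i ∈ (range (n + 1)).erase j, η i * θ i := by
        refine dvd_sum fun i hi => ?_
        rcases lt_or_gt_of_ne (ne_of_mem_erase hi) with h | h
        · rw [ih i h (by omega)]; simp
        · exact ((pow_dvd_pow 3 h).trans (h1 i)).mul_left _
      rw [← neg_eq_of_add_eq_zero_right z, dvd_neg] at d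
      have := h2 j _ d
      have := abs_le.1 (b j)
      omega
  simpa [η] using this n n.lt_succ_self

theorem riesz {θ : ℕ → ℤ} {α : ℕ → ℝ} (a0 : ∀ j, 0 ≤ α j) (a1 : ∀ j, α j ≤ 1 / 2)
    (hθ : ∀ n m m', Rep θ n m → Rep θ n m' → ∀ s : ℤ, |s| ≤ 2 → m = m' + s * θ n → s = 0)
    (a2 : Tendsto α atTop (𝓝 0)) :
    ∃ μ : Measure (AddCircle T), IsProbabilityMeasure μ ∧
      Tendsto (fun n : ℤ => ∫ t, fourier (-n) t ∂μ) cofinite (𝓝 0) ∧
      (∀ j, ∫ t, fourier (-θ j) t ∂μ = α j) ∧
      ∀ i j, i ≠ j → ∫ t, fourier (θ i - θ j) t ∂μ = α i * α j := by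
  let P : ℕ → AddCircle T → ℝ := fun n t =>
    ∏ j ∈ range n, (1 + α j * (2 * (fourier (θ j) t).re))
  have cP : ∀ n, Continuous (P n) := fun n => by fun_prop
  have P0 : ∀ n t, 0 ≤ P n t := fun n t => prod_nonneg fun j _ => by
    have := (abs_le.1 ((Complex.abs_re_le_norm (fourier (θ j) t)).trans (nf _ _).le)).1
    nlinarith [a0 j, a1 j]
  let c : ℕ → ℤ → ℂ := fun n m => ∫ t, P n t * fourier m t ∂haarAddCircle
  have c0 : ∀ m, c 0 m = if m = 0 then 1 else 0 := fun m => by simp [c, P, int_fourier, -fourier_apply]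
  have cs : ∀ n m, c (n + 1) m = c n m + α n * (c n (m + θ n) + c n (m - θ n)) := by
    intro n m
    have i : ∀ m, Integrable (fun t => (P n t : ℂ) * fourier m t) haarAddCircle := fun m =>
      ci (by have := cP n; fun_prop) _
    simp only [c]
    rw [← integral_add (i _) (i _), ← integral_const_mul,
      ← integral_add (i _) (ci (by have := cP n; fun_prop) _)]
    refine integral_congr_ae (ae_of_all _ fun t => ?_)
    simp only [P, prod_range_succ, Complex.ofReal_mul, Complex.ofReal_add, sub_eq_add_neg,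
      fourier_add, fourier_neg, Complex.ofReal_one]
    rw [← Complex.ofReal_mul 2, ← Complex.add_conj]
    ring
  have sup : ∀ n m, ¬ Rep θ n m → c n m = 0 := by
    intro n
    induction n with
    | zero => exact fun m h => by rw [c0, if_neg fun e : m = 0 => h (e ▸ Rep.zero θ 0)]
    | succ n ih =>
      intro m h
      rw [cs, ih m fun h' => h (h'.mono n.le_succ),
        ih _ fun h' => h (by simpa using h'.step (s := -1) (by simp)),
        ih _ fun h' => h (by simpa using h'.step (s := 1) (by simp))]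
      simp
  have st : ∀ n m, Rep θ n m → ∀ n', n ≤ n' → c n' m = c n m := by
    intro n m h n' hn
    induction n', hn using Nat.le_induction with
    | base => rfl
    | succ k hk ih =>
      rw [cs, ih, sup k (m + θ k) fun h' => by simpa using hθ k _ _ h' (h.mono hk) 1 (by simp),
        sup k (m - θ k) fun h' => by simpa using hθ k _ _ (h.mono hk) h' 1 (by simp)]
      simp
  have nw : ∀ n m, Rep θ n m → c (n + 1) (m + θ n) = α n * c n m ∧
      c (n + 1) (m - θ n) = α n * c n m := by
    intro n m h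
    constructor
    · rw [cs, sup n (m + θ n) fun h' => by simpa using hθ n _ _ h' h 1 (by simp),
        sup n (m + θ n + θ n) fun h' => by simpa using hθ n _ _ h' h 2 (by simp) (by ring)]
      simp
    · rw [cs, sup n (m - θ n) fun h' => by simpa using hθ n _ _ h h' 1 (by simp),
        sup n (m - θ n - θ n) fun h' => by simpa using hθ n _ _ h h' 2 (by simp) (by ring)]
      simp
  have z : ∀ n, c n 0 = 1 := fun n => by rw [st 0 0 (Rep.zero θ 0) n n.zero_le, c0, if_pos rfl]
  have bd : ∀ n m, ‖c n m‖ ≤ 1 := fun n m => by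
    have h1 : ∫ t, P n t ∂haarAddCircle = 1 := by
      have := z n
      simp only [c, fourier_zero, mul_one, integral_complex_ofReal] at this
      exact_mod_cast this
    refine (norm_integral_le_integral_norm _).trans (le_of_eq ?_)
    simp only [norm_mul, nf, mul_one, Complex.norm_real, Real.norm_of_nonneg (P0 _ _), h1]
  have sm : ∀ n0 (ε : ℝ), (∀ j ≥ n0, α j ≤ ε) → ∀ m, ¬ Rep θ n0 m → ∀ n ≥ n0, ‖c n m‖ ≤ 2 * ε := by
    intro n0 ε hε m hm n hn
    induction n, hn using Nat.le_induction with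
    | base => rw [sup _ _ hm, norm_zero]; linarith [a0 n0, hε n0 le_rfl]
    | succ k hk ih =>
      by_cases h : Rep θ k m
      · rwa [st k m h _ k.le_succ]
      · rw [cs, sup _ _ h, zero_add, norm_mul, Complex.norm_real, Real.norm_of_nonneg (a0 k)]
        nlinarith [norm_add_le (c k (m + θ k)) (c k (m - θ k)), bd k (m + θ k), bd k (m - θ k),
          a0 k, hε k hk, norm_nonneg (c k (m + θ k) + c k (m - θ k))]
  let ν : ℕ → Measure (AddCircle T) := fun n =>
    haarAddCircle.withDensity fun t => ((P n t).toNNReal : ENNReal)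
  have hν : ∀ n m, ∫ t, fourier m t ∂ν n = c n m := fun n m => by
    rw [integral_withDensity_eq_integral_smul (cP n).measurable.real_toNNReal]
    simp [c, NNReal.smul_def, P0, -fourier_apply]
  have pν : ∀ n, IsProbabilityMeasure (ν n) := fun n => by
    have : IsFiniteMeasure (ν n) := isFiniteMeasure_withDensity_ofReal (ci (cP n) _).2
    have h := (hν n 0).trans (z n)
    simp only [fourier_zero, integral_const, Complex.real_smul, mul_one,
      Complex.ofReal_eq_one] at h
    exact isProbabilityMeasure_iff_real.2 h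
  let ρ : ℕ → ProbabilityMeasure (AddCircle T) := fun n => ⟨ν n, pν n⟩
  obtain ⟨μ, hμ⟩ := exists_clusterPt_of_compactSpace (map ρ atTop)
  have key : ∀ (m : ℤ) (S : Set ℂ), IsClosed S → (∀ᶠ n in atTop, c n m ∈ S) →
      ∫ t, fourier m t ∂(μ : Measure (AddCircle T)) ∈ S := by
    intro m S hS h
    have hc : Continuous fun ν : ProbabilityMeasure (AddCircle T) =>
        ∫ t, fourier m t ∂(ν : Measure (AddCircle T)) := continuous_iff_continuousAt.2 fun ν =>
      (ProbabilityMeasure.tendsto_iff_forall_integral_rclike_tendsto ℂ).1 tendsto_id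
        (BoundedContinuousFunction.mkOfCompact (fourier m))
    refine isClosed_iff_clusterPt.1 (hS.preimage hc) μ (hμ.mono (le_principal_iff.2 ?_))
    exact h.mono fun n hn => by rw [← hν] at hn; exact hn
  have key2 : ∀ n m, Rep θ n m → ∫ t, fourier m t ∂(μ : Measure (AddCircle T)) = c n m := fun n m h =>
    key m {c n m} isClosed_singleton ((eventually_ge_atTop n).mono (st n m h))
  have r1 : ∀ j, Rep θ (j + 1) (θ j) := fun j => by
    simpa using (Rep.zero θ j).step (s := 1) (by simp)
  have r2 : ∀ j, Rep θ (j + 1) (-θ j) := fun j => by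
    simpa using (Rep.zero θ j).step (s := -1) (by simp)
  have v1 : ∀ j, c (j + 1) (θ j) = α j := fun j => by simpa [z] using (nw j 0 (Rep.zero θ j)).1
  have v2 : ∀ j, c (j + 1) (-θ j) = α j := fun j => by simpa [z] using (nw j 0 (Rep.zero θ j)).2
  refine ⟨μ, inferInstance, ?_, fun j => by rw [key2 _ _ (r2 j), v2], fun i j hij => ?_⟩
  · refine Metric.tendsto_nhds.2 fun ε hε => ?_
    obtain ⟨n0, h0⟩ := eventually_atTop.1 (a2.eventually (ge_mem_nhds (show 0 < ε / 3 by positivity)))
    refine eventually_cofinite.2 (((Rep.fin θ n0).image Neg.neg).subset fun m hm => ?_)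
    by_contra hc
    refine hm ?_
    have := key (-m) (Metric.closedBall 0 (2 * (ε / 3))) Metric.isClosed_closedBall
      ((eventually_ge_atTop n0).mono fun n hn => mem_closedBall_zero_iff.2
        (sm n0 _ h0 _ (fun h => hc ⟨_, h, neg_neg m⟩) n hn))
    exact lt_of_le_of_lt this (by linarith)
  · rcases lt_or_gt_of_ne hij with h | h
    · rw [key2 (j + 1) _ (by simpa [sub_eq_add_neg] using ((r1 i).mono h).step (s := -1) (by simp)),
        (nw j _ ((r1 i).mono h)).2, st _ _ (r1 i) j h, v1, mul_comm]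
    · rw [sub_eq_neg_add, key2 (i + 1) _ (by simpa using ((r2 j).mono h).step (s := 1) (by simp)),
        (nw i _ ((r2 j).mono h)).1, st _ _ (r2 j) i h, v2]

end Pool.Agent.H.MP_ab3f56_an
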