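import Pool.Agent.H.MP_ab3f56_an.A

set_option autoImplicit false

namespace Pool.Agent.H.MP_ab3f56_an

open MeasureTheory Finset Filter Topology AddCircle

/-- the properties of the homogeneous function -/
structure Psi (α : ℝ) (lam : ℂ) (δ C : ℝ) (Ψ : ℂ → ℂ) : Prop where
  cont : Continuous Ψ
  hom : ∀ z, Ψ (α * z) = lam * Ψ z
  rot : ∀ u z, ‖u‖ = 1 → Ψ (u * z) = u * Ψ z
  one : Ψ 1 = 1
  est : ∀ z w, ‖z‖ ≤ 1 → ‖w‖ ≤ 1 → ‖Ψ z - Ψ w‖ ≤ δ + C * ‖z - w‖ ^ 2

theorem exists_psi {α : ℝ} (a0 : 0 < α) (a1 : α < 1) {lam : ℂ} (l0 : lam ≠ 0) (l1 : ‖lam‖ < 1)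
    {δ : ℝ} (hδ : 0 < δ) : ∃ (C : ℕ) (Ψ : ℂ → ℂ), Psi α lam δ C Ψ := by
  have la : Real.log α < 0 := Real.log_neg a0 a1
  let γ : ℂ := Complex.log lam / (Real.log α : ℝ)
  have hγ : 0 < γ.re := by
    rw [Complex.div_ofReal_re, Complex.log_re]
    exact div_pos_of_neg_of_neg (Real.log_neg (norm_pos_iff.2 l0) l1) la
  let Ψ : ℂ → ℂ := fun z => z / (‖z‖ : ℝ) * ((‖z‖ : ℝ) : ℂ) ^ γ
  have c1 : Continuous fun z : ℂ => ((‖z‖ : ℝ) : ℂ) ^ γ :=
    (Complex.continuous_ofReal_cpow_const hγ).comp continuous_norm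
  have n1 : ∀ z, ‖Ψ z‖ ≤ ‖((‖z‖ : ℝ) : ℂ) ^ γ‖ := fun z => by
    rw [norm_mul, norm_div, Complex.norm_real, norm_norm]
    exact mul_le_of_le_one_left (norm_nonneg _) (div_self_le_one _)
  have c2 : Continuous Ψ := by
    refine continuous_iff_continuousAt.2 fun z => ?_
    rcases eq_or_ne z 0 with rfl | hz
    · have h0 : γ ≠ 0 := fun h => by simp [h] at hγ
      rw [ContinuousAt, show Ψ 0 = 0 by simp [Ψ]]
      refine squeeze_zero_norm n1 ?_
      simpa [h0] using c1.norm.tendsto 0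
    · exact (continuousAt_id.div (by fun_prop) (by simpa using hz)).mul c1.continuousAt
  have n2 : ∀ z, ‖z‖ ≤ 1 → ‖Ψ z‖ ≤ 1 := fun z hz => (n1 z).trans (by
    rw [Complex.norm_cpow_eq_rpow_re_of_nonneg (norm_nonneg _) hγ.ne']
    exact Real.rpow_le_one (norm_nonneg _) hz hγ.le)
  obtain ⟨η, η0, hη⟩ := Metric.uniformContinuousOn_iff.1
    ((isCompact_closedBall (0 : ℂ) 1).uniformContinuousOn_of_continuous c2.continuousOn) δ hδ
  obtain ⟨C, hC⟩ := exists_nat_ge (2 / η ^ 2)
  refine ⟨C, Ψ, c2, fun z => ?_, fun u z hu => ?_, by simp [Ψ], fun z w hz hw => ?_⟩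
  · have h1 : (α : ℂ) ≠ 0 := by exact_mod_cast a0.ne'
    have h2 : (α : ℂ) ^ γ = lam := by
      have : ((Real.log α : ℝ) : ℂ) ≠ 0 := by exact_mod_cast la.ne
      rw [Complex.cpow_def_of_ne_zero h1, ← Complex.ofReal_log a0.le, mul_div_cancel₀ _ this,
        Complex.exp_log l0]
    simp only [Ψ, norm_mul, Complex.norm_real, Real.norm_of_nonneg a0.le, Complex.ofReal_mul]
    rw [Complex.mul_cpow_ofReal_nonneg a0.le (norm_nonneg _), h2, mul_div_mul_left _ _ h1]
    ring
  · simp only [Ψ, norm_mul, hu, one_mul]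
    ring
  · rcases lt_or_ge ‖z - w‖ η with h | h
    · have := hη z (by simpa) w (by simpa) (by rwa [dist_eq_norm])
      rw [dist_eq_norm] at this
      have : 0 ≤ C * ‖z - w‖ ^ 2 := by positivity
      linarith
    · have h1 : 2 ≤ C * ‖z - w‖ ^ 2 := by
        rw [div_le_iff₀ (by positivity)] at hC
        exact hC.trans (by gcongr)
      linarith [norm_sub_le (Ψ z) (Ψ w), n2 z hz, n2 w hw]

variable {T : ℝ} [hT : Fact (0 < T)]

theorem int_sq {ι : Type} (s : Finset ι) (g : ι → AddCircle T → ℂ) (hg : ∀ i, Continuous (g i))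
    (μ : Measure (AddCircle T)) [IsFiniteMeasure μ]
    (h : ∀ i ∈ s, ∀ j ∈ s, i ≠ j → ∫ t, g i t * (starRingEnd ℂ) (g j t) ∂μ = 0) :
    ∫ t, ‖∑ i ∈ s, g i t‖ ^ 2 ∂μ = ∑ i ∈ s, ∫ t, ‖g i t‖ ^ 2 ∂μ := by
  apply Complex.ofReal_injective
  simp only [Complex.ofReal_sum, ← integral_complex_ofReal, Complex.ofReal_pow,
    ← Complex.mul_conj', map_sum, sum_mul_sum]
  rw [integral_finsetSum _ fun i _ => ci (by fun_prop) _]
  refine sum_congr rfl fun i hi => ?_
  rw [integral_finsetSum _ fun j _ => ci (by fun_prop) _]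
  exact sum_eq_single_of_mem i hi fun j hj hji => h i hi j hj hji.symm

omit hT in
theorem four_nat (n : ℕ) (t : AddCircle T) : fourier n t = fourier 1 t ^ n := by
  induction n with
  | zero => simp
  | succ n ih => rw [Nat.cast_succ, fourier_add, ih, pow_succ]

omit hT in
theorem four_add (n : ℤ) (x y : AddCircle T) : fourier n (x + y) = fourier n x * fourier n y := by
  simp [toCircle_add]

theorem test (μ : Measure (AddCircle T)) [IsProbabilityMeasure μ] {α : ℝ} (a0 : 0 ≤ α) (a1 : α ≤ 1)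
    {lam : ℂ} {δ C : ℝ} (hC : 0 ≤ C) {Ψ : ℂ → ℂ} (h : Psi α lam δ C Ψ) {D N M : ℕ} (hD : 0 < D)
    (hN : 0 < N) (ω : ℕ → ℕ) (hω : ∀ j < D, ω j ≤ M)
    (h1 : ∀ j < D, ∫ t, fourier (-(N - ω j)) t ∂μ = α)
    (h2 : ∀ i < D, ∀ j < D, i ≠ j → ∫ t, fourier ((N - ω i) - (N - ω j)) t ∂μ = α * α) :
    ∃ φ f : C(AddCircle T, ℂ), (∀ n ≤ 0, fourierCoeff f n = 0) ∧
      ∫ t, ‖f t‖ ∂haarAddCircle = 1 ∧
      ‖∫ t, f t * φ t ∂haarAddCircle - 1‖ ≤ δ + C * (4 * M ^ 2 / N) ∧
      ∀ x, ‖∫ y, φ (x + y) ∂μ - lam * φ x‖ ≤ δ + C * (4 / D) := by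
  have cΨ := h.cont
  have D0 : (0 : ℝ) < D := by exact_mod_cast hD
  have N0 : (0 : ℝ) < N := by exact_mod_cast hN
  have avg : ∀ (g : ℕ → ℂ) (b : ℝ), (∀ j < D, ‖g j‖ ≤ b) →
      ‖(D : ℂ)⁻¹ * ∑ j ∈ range D, g j‖ ≤ b := by
    intro g b hg
    rw [norm_mul, norm_inv, Complex.norm_natCast, inv_mul_le_iff₀ D0]
    simpa using (norm_sum_le _ _).trans (sum_le_card_nsmul _ _ b fun j hj => hg j (mem_range.1 hj))
  let Z : AddCircle T → ℂ := fun t => (D : ℂ)⁻¹ * ∑ j ∈ range D, fourier (-(N - ω j)) t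
  have cZ : Continuous Z := by fun_prop
  have nZ : ∀ t, ‖Z t‖ ≤ 1 := fun t => avg _ _ fun j _ => (nf _ _).le
  let S : AddCircle T → ℂ := fun t => ∑ a ∈ range N, fourier a t
  have cS : Continuous S := by fun_prop
  let K : AddCircle T → ℝ := fun t => (N : ℝ)⁻¹ * ‖S t‖ ^ 2
  have cK : Continuous K := by fun_prop
  have K0 : ∀ t, 0 ≤ K t := fun t => by positivity
  have K1 : ∫ t, K t ∂haarAddCircle = 1 := by
    rw [integral_const_mul, int_sq _ (fun a : ℕ => fourier a) (fun _ => by fun_prop)]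
    · simp [nf, hN.ne', -fourier_apply]
    · intro i _ j _ hij
      simp only [← fourier_neg, ← fourier_add, int_fourier]
      exact if_neg (by omega)
  refine ⟨⟨fun t => Ψ (Z t), by fun_prop⟩, ⟨fun t => K t * fourier N t, by fun_prop⟩,
    fun n hn => ?_, ?_, ?_, fun x => ?_⟩
  · have : ∀ t, fourier (-n) t • ((K t : ℂ) * fourier N t) =
        (N : ℂ)⁻¹ * ∑ a ∈ range N, ∑ b ∈ range N, fourier (-n + N + b + -a) t := fun t => by
      simp only [K, S, Complex.ofReal_mul, Complex.ofReal_pow, ← Complex.mul_conj', map_sum,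
        fourier_add, ← fourier_neg, smul_eq_mul, mul_sum, sum_mul, Complex.ofReal_inv,
        Complex.ofReal_natCast]
      exact sum_congr rfl fun a _ => sum_congr rfl fun b _ => by ring
    simp only [fourierCoeff, ContinuousMap.coe_mk, this]
    rw [integral_const_mul, integral_finsetSum _ fun i _ => ci (by fun_prop) _,
      sum_eq_zero fun a ha => ?_, mul_zero]
    rw [integral_finsetSum _ fun i _ => ci (by fun_prop) _]
    refine sum_eq_zero fun b _ => ?_
    have := mem_range.1 ha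
    rw [int_fourier, if_neg (by omega)]
  · simp only [ContinuousMap.coe_mk, norm_mul, nf, mul_one, Complex.norm_real,
      Real.norm_of_nonneg (K0 _), K1]
  · have e1 : (1 : ℂ) = ∫ t, (K t : ℂ) ∂haarAddCircle := by
      rw [integral_complex_ofReal, K1, Complex.ofReal_one]
    have e2 : δ + C * (4 * M ^ 2 / N) = ∫ t, δ * K t + C * (4 * M ^ 2 / N) ∂haarAddCircle := by
      rw [integral_add (ci (by fun_prop) _) (integrable_const _), integral_const_mul, K1]
      simp
    simp only [ContinuousMap.coe_mk]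
    rw [e1, e2, ← integral_sub (ci (by fun_prop) _) (ci (by fun_prop) _)]
    refine norm_integral_le_of_norm_le (ci (by fun_prop) _) (ae_of_all _ fun t => ?_)
    have e3 : ‖S t * (fourier N t * Z t - 1)‖ ≤ 2 * M := by
      have : S t * (fourier N t * Z t - 1) = (D : ℂ)⁻¹ * ∑ j ∈ range D,
          (fourier 1 t ^ N - 1) * ∑ a ∈ range (ω j), fourier 1 t ^ a := by
        have e : ∀ j, (fourier 1 t ^ N - 1) * ∑ a ∈ range (ω j), fourier 1 t ^ a =
            S t * (fourier N t * fourier (-(N - ω j)) t - 1) := fun j => by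
          rw [← fourier_add, show (N : ℤ) + -(N - ω j) = ω j by ring, four_nat, ← geom_sum_mul,
            ← geom_sum_mul]
          simp only [S, four_nat]
          ring
        have : (D : ℂ) ≠ 0 := by exact_mod_cast hD.ne'
        simp only [e, Z, ← mul_sum, sum_sub_distrib, sum_const, card_range, nsmul_eq_mul]
        field_simp
      rw [this]
      refine avg _ _ fun j hj => ?_
      rw [norm_mul]
      refine mul_le_mul ((norm_sub_le _ _).trans (by simp [nf, -fourier_apply]; norm_num))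
        ((norm_sum_le _ _).trans ?_) (norm_nonneg _) zero_le_two
      simpa [nf, -fourier_apply] using hω j hj
    have e4 := h.est (fourier N t * Z t) 1 (by rw [norm_mul, nf, one_mul]; exact nZ t) (by simp)
    rw [h.rot _ _ (nf _ _), h.one] at e4
    rw [mul_assoc, ← mul_sub_one, norm_mul, Complex.norm_real, Real.norm_of_nonneg (K0 t)]
    have e5 : K t * ‖fourier N t * Z t - 1‖ ^ 2 ≤ 4 * M ^ 2 / N := by
      simp only [K]
      rw [mul_assoc, ← mul_pow, ← norm_mul, inv_mul_eq_div]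
      gcongr
      nlinarith [norm_nonneg (S t * (fourier N t * Z t - 1))]
    nlinarith [mul_le_mul_of_nonneg_left e4 (K0 t), mul_le_mul_of_nonneg_left e5 hC]
  · let g : ℕ → AddCircle T → ℂ := fun j y =>
      fourier (-(N - ω j)) x * (fourier (-(N - ω j)) y - α)
    have v : ∫ y, ‖∑ j ∈ range D, g j y‖ ^ 2 ∂μ ≤ D * 4 := by
      rw [int_sq _ g (fun _ => by fun_prop)]
      · refine (sum_le_card_nsmul _ _ 4 fun j _ => ?_).trans (by simp)
        refine (integral_mono (ci (by fun_prop) _) (integrable_const 4) fun y => ?_).trans (by simp)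
        have := norm_sub_le (fourier (-(N - ω j : ℤ)) y) (α : ℂ)
        rw [nf, Complex.norm_real, Real.norm_of_nonneg a0] at this
        simp only [g, norm_mul, nf, one_mul]
        nlinarith [norm_nonneg (fourier (-(N - ω j : ℤ)) y - (α : ℂ))]
      · intro i hi j hj hij
        have : ∀ y, g i y * (starRingEnd ℂ) (g j y) =
            fourier (-(N - ω i)) x * (starRingEnd ℂ) (fourier (-(N - ω j)) x) *
              (fourier ((N - ω j) - (N - ω i)) y - α * fourier (-(N - ω i)) y -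
                α * (starRingEnd ℂ) (fourier (-(N - ω j)) y) + α * α) := fun y => by
          rw [sub_eq_add_neg (N - ω j : ℤ), fourier_add]
          simp only [g, map_mul, map_sub, Complex.conj_ofReal, fourier_neg, Complex.conj_conj]
          ring
        simp only [this]
        rw [integral_const_mul, integral_add (ci (by fun_prop) _) (integrable_const _),
          integral_sub (ci (by fun_prop) _) (ci (by fun_prop) _),
          integral_sub (ci (by fun_prop) _) (ci (by fun_prop) _), integral_const_mul,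
          integral_const_mul, integral_conj, h1 i (mem_range.1 hi), h1 j (mem_range.1 hj),
          h2 j (mem_range.1 hj) i (mem_range.1 hi) hij.symm]
        simp
    have e1 : ∀ y, Z (x + y) - α * Z x = (D : ℂ)⁻¹ * ∑ j ∈ range D, g j y := fun y => by
      simp only [Z, g, four_add, mul_sub, sum_sub_distrib, ← sum_mul]
      ring
    have e2 : lam * Ψ (Z x) = ∫ _, Ψ (α * Z x) ∂μ := by simp [h.hom]
    simp only [ContinuousMap.coe_mk]
    rw [e2, ← integral_sub (ci (by fun_prop) _) (integrable_const _)]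
    refine (norm_integral_le_of_norm_le (g := fun y => δ + C * (D : ℝ)⁻¹ ^ 2 *
      ‖∑ j ∈ range D, g j y‖ ^ 2) (ci (by fun_prop) _) (ae_of_all _ fun y => ?_)).trans ?_
    · refine (h.est _ _ (nZ _) ?_).trans (le_of_eq ?_)
      · rw [norm_mul, Complex.norm_real, Real.norm_of_nonneg a0]
        exact mul_le_one₀ a1 (norm_nonneg _) (nZ x)
      · rw [e1, norm_mul, norm_inv, Complex.norm_natCast]
        ring
    · rw [integral_add (integrable_const _) (ci (by fun_prop) _), integral_const_mul]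
      simp only [integral_const, probReal_univ, one_smul, mul_assoc]
      gcongr
      calc _ ≤ (D : ℝ)⁻¹ ^ 2 * (D * 4) := by gcongr
        _ = _ := by field_simp

end Pool.Agent.H.MP_ab3f56_an
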