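import Pool.Agent.H.MP_ab3f56_an.B

set_option autoImplicit false

namespace Pool.Agent.H.MP_ab3f56_an

open MeasureTheory Finset Filter Topology AddCircle

variable {T : ℝ} [hT : Fact (0 < T)]

theorem exists_mu (q : ℕ → ℂ) (q0 : ∀ i, q i ≠ 0) (q1 : ∀ i, ‖q i‖ < 1) :
    ∃ μ : Measure (AddCircle T), IsProbabilityMeasure μ ∧
      Tendsto (fun n : ℤ => ∫ t, fourier (-n) t ∂μ) cofinite (𝓝 0) ∧
      ∀ i, ∀ δ > 0, ∃ φ f : C(AddCircle T, ℂ), (∀ n ≤ 0, fourierCoeff f n = 0) ∧
        ∫ t, ‖f t‖ ∂haarAddCircle = 1 ∧ 1 / 2 ≤ ‖∫ t, f t * φ t ∂haarAddCircle‖ ∧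
        ∀ x, ‖∫ y, φ (x + y) ∂μ - q i * φ x‖ ≤ δ := by
  let a : ℕ → ℝ := fun k => 1 / ((k : ℝ) + 4)
  have a0 : ∀ k, 0 < a k := fun k => by positivity
  have a1 : ∀ k, a k ≤ 1 / 4 := fun k =>
    one_div_le_one_div_of_le (by norm_num) (by linarith [(Nat.cast_nonneg k : (0 : ℝ) ≤ k)])
  have a2 : Tendsto a atTop (𝓝 0) :=
    tendsto_const_nhds.div_atTop (tendsto_atTop_add_const_right _ _ tendsto_natCast_atTop_atTop)
  choose C Ψ hΨ using fun k => exists_psi (a0 k) ((a1 k).trans_lt (by norm_num))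
    (q0 (Nat.unpair k).1) (q1 _) (a0 k)
  let D : ℕ → ℕ := fun k => 4 * C k * (k + 4) + 1
  let b : ℕ → ℕ := fun k => ∑ i ∈ range k, D i
  have bs : ∀ k, b (k + 1) = b k + D k := fun k => sum_range_succ _ _
  have bm : StrictMono b := strictMono_nat_of_lt_succ fun k => by rw [bs]; simp [D]
  have ex : ∀ n, ∃ k, n < b (k + 1) := fun n => ⟨n, bm.id_le (n + 1)⟩
  let kk : ℕ → ℕ := fun n => Nat.find (ex n)
  have k1 : ∀ n, n < b (kk n + 1) := fun n => Nat.find_spec (ex n)
  have k2 : ∀ k n, b k ≤ n → k ≤ kk n := fun k n h =>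
    Nat.lt_succ_iff.1 (bm.lt_iff_lt.1 (h.trans_lt (k1 n)))
  have k3 : ∀ k, ∀ j < D k, kk (b k + j) = k := fun k j hj =>
    le_antisymm (Nat.find_min' _ (by rw [bs]; omega)) (k2 _ _ (by omega))
  let N : ℕ → ℕ := fun k => 3 ^ (2 * b (k + 1) + D k)
  let θ : ℕ → ℤ := fun n => N (kk n) - (3 ^ n : ℕ)
  have dN : ∀ n, (3 : ℤ) ^ (n + 1) ∣ N (kk n) := fun n => by
    simp only [N, Nat.cast_pow, Nat.cast_ofNat]
    exact pow_dvd_pow _ (by have := k1 n; omega)
  obtain ⟨μ, hμ, hR, h1, h2⟩ := riesz (T := T) (θ := θ) (α := fun n => a (kk n))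
    (fun _ => (a0 _).le) (fun _ => (a1 _).trans (by norm_num))
    (fun n m m' hm hm' s hs h => dissoc
      (fun j => dvd_sub ((pow_dvd_pow 3 j.le_succ).trans (dN j)) (by simp))
      (fun j s hs => by
        rw [mul_sub, dvd_sub_right ((dN j).mul_left s), pow_succ'] at hs
        exact (mul_dvd_mul_iff_right (c := (3 : ℤ) ^ j) (by positivity)).1 (by simpa using hs)) hm hm' hs h)
    (a2.comp (tendsto_atTop.2 fun k => (eventually_ge_atTop (b k)).mono (k2 k)))
  refine ⟨μ, hμ, hR, fun i δ hδ => ?_⟩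
  obtain ⟨r, hr⟩ := eventually_atTop.1 (a2.eventually (ge_mem_nhds (half_pos hδ)))
  let k := Nat.pair i r
  have hk := hr k (Nat.right_le_pair i r)
  obtain ⟨φ, f, f1, f2, f3, f4⟩ := test μ (a0 k).le ((a1 k).trans (by norm_num))
    (Nat.cast_nonneg _) (hΨ k) (D := D k) (N := N k) (M := 3 ^ b (k + 1)) (by simp [D])
    (by simp [N]) (fun j => 3 ^ (b k + j))
    (fun j hj => Nat.pow_le_pow_right (by norm_num) (by rw [bs]; omega))
    (fun j hj => by simpa only [θ, k3 k j hj] using h1 (b k + j))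
    (fun i hi j hj hij => by simpa only [θ, k3 k j hj, k3 k i hi] using h2 (b k + i) (b k + j) (by omega))
  have e1 : (C k : ℝ) * (4 / D k) ≤ a k := by
    simp only [a, D]
    rw [← mul_div_assoc, div_le_div_iff₀ (by positivity) (by positivity)]
    push_cast
    linarith
  have e2 : (4 : ℝ) * ((3 ^ b (k + 1) : ℕ) : ℝ) ^ 2 / N k ≤ 4 / D k := by
    simp only [N]
    have : (D k : ℝ) ≤ 3 ^ D k := by exact_mod_cast (Nat.lt_pow_self (by norm_num)).le
    have : (0 : ℝ) < D k := by simp only [D]; positivity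
    push_cast
    rw [pow_add, mul_comm 2, pow_mul, mul_comm (4 : ℝ), mul_div_mul_left _ _ (by positivity)]
    gcongr
  refine ⟨φ, f, f1, f2, ?_, fun x => ?_⟩
  · have := norm_sub_norm_le (1 : ℂ) (∫ t, f t * φ t ∂haarAddCircle)
    rw [norm_sub_rev, norm_one] at this
    have e3 := mul_le_mul_of_nonneg_left e2 (Nat.cast_nonneg (C k))
    linarith [a1 k]
  · have := f4 x
    simp only [k, Nat.unpair_pair] at this
    exact this.trans (by linarith)

/-- the measure preserving subtraction -/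
theorem mp (μ : Measure (AddCircle T)) [IsProbabilityMeasure μ] :
    MeasurePreserving (fun p : AddCircle T × AddCircle T => p.1 - p.2) (haarAddCircle.prod μ)
      haarAddCircle :=
  measurePreserving_fst.comp (measurePreserving_sub_prod haarAddCircle μ)

theorem exists_conv (μ : Measure (AddCircle T)) [IsProbabilityMeasure μ] :
    ∃ S : Lp ℂ 1 (@haarAddCircle T _) →L[ℂ] Lp ℂ 1 (@haarAddCircle T _), (∀ f, ‖S f‖ ≤ ‖f‖) ∧
      (∀ f, ∀ᵐ x ∂haarAddCircle, S f x = ∫ y, f (x - y) ∂μ) ∧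
      ∀ f (φ : C(AddCircle T, ℂ)), ∫ x, S f x * φ x ∂haarAddCircle =
        ∫ x, f x * ∫ y, φ (x + y) ∂μ ∂haarAddCircle := by
  have I : ∀ f : Lp ℂ 1 (@haarAddCircle T _), Integrable (fun p : AddCircle T × AddCircle T =>
      f (p.1 - p.2)) (haarAddCircle.prod μ) := fun f =>
    (mp μ).integrable_comp_of_integrable (L1.integrable_coeFn f)
  let S0 : Lp ℂ 1 (@haarAddCircle T _) → Lp ℂ 1 (@haarAddCircle T _) := fun f =>
    (I f).integral_prod_left.toL1 _
  have h0 : ∀ f, S0 f =ᵐ[haarAddCircle] fun x => ∫ y, f (x - y) ∂μ := fun f =>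
    Integrable.coeFn_toL1 _
  let S1 : Lp ℂ 1 (@haarAddCircle T _) →ₗ[ℂ] Lp ℂ 1 (@haarAddCircle T _) :=
    { toFun := S0
      map_add' := fun f g => Lp.ext (by
        filter_upwards [h0 (f + g), h0 f, h0 g, Lp.coeFn_add (S0 f) (S0 g), (I f).prod_right_ae,
          (I g).prod_right_ae, Measure.ae_ae_of_ae_prod
            ((mp μ).quasiMeasurePreserving.ae (Lp.coeFn_add f g))] with x h1 h2 h3 h4 h5 h6 h7
        rw [h4, Pi.add_apply, h1, h2, h3, ← integral_add h5 h6]
        exact integral_congr_ae h7)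
      map_smul' := fun c f => Lp.ext (by
        filter_upwards [h0 (c • f), h0 f, Lp.coeFn_smul c (S0 f), Measure.ae_ae_of_ae_prod
            ((mp μ).quasiMeasurePreserving.ae (Lp.coeFn_smul c f))] with x h1 h2 h4 h7
        rw [RingHom.id_apply, h4, Pi.smul_apply, h1, h2, ← integral_smul]
        exact integral_congr_ae h7) }
  have hn : ∀ f, ‖S1 f‖ ≤ ‖f‖ := fun f => by
    change ‖S0 f‖ ≤ _
    have e := integral_map (mp μ).measurable.aemeasurable (f := fun x => ‖f x‖)
      (by rw [(mp μ).map_eq]; exact (Lp.aestronglyMeasurable f).norm)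
    rw [(mp μ).map_eq] at e
    rw [L1.norm_eq_integral_norm, L1.norm_eq_integral_norm, e, integral_prod _ (I f).norm]
    refine integral_mono_ae (L1.integrable_coeFn _).norm (I f).norm.integral_prod_left ?_
    filter_upwards [h0 f] with x hx
    rw [hx]
    exact norm_integral_le_integral_norm _
  refine ⟨S1.mkContinuous 1 fun f => by simpa using hn f, hn, h0, fun f φ => ?_⟩
  change ∫ x, S0 f x * φ x ∂_ = _
  have J : Integrable (fun p : AddCircle T × AddCircle T => f (p.1 - p.2) * φ p.1)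
      (haarAddCircle.prod μ) := (I f).mul_bdd (c := ‖φ‖)
        (by fun_prop : Continuous fun p : AddCircle T × AddCircle T => φ p.1).aestronglyMeasurable
        (ae_of_all _ fun p => φ.norm_coe_le_norm _)
  have J2 : Integrable (fun p : AddCircle T × AddCircle T => f p.1 * φ (p.1 + p.2))
      (haarAddCircle.prod μ) :=
    ((measurePreserving_fst.integrable_comp_of_integrable (L1.integrable_coeFn f))).mul_bdd
      (c := ‖φ‖) (by fun_prop : Continuous fun p : AddCircle T × AddCircle T =>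
        φ (p.1 + p.2)).aestronglyMeasurable (ae_of_all _ fun p => φ.norm_coe_le_norm _)
  calc _ = ∫ x, ∫ y, f (x - y) * φ x ∂μ ∂haarAddCircle :=
        integral_congr_ae ((h0 f).mono fun x hx => by simp only [hx, integral_mul_const])
    _ = ∫ y, ∫ x, f (x - y) * φ x ∂haarAddCircle ∂μ := integral_integral_swap J
    _ = ∫ y, ∫ x, f x * φ (x + y) ∂haarAddCircle ∂μ := by
        refine integral_congr_ae (ae_of_all _ fun y => ?_)
        simpa using (integral_add_right_eq_self (μ := haarAddCircle)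
          (fun x => f (x - y) * φ x) y).symm
    _ = _ := by rw [← integral_integral_swap J2]; simp only [integral_const_mul]

end Pool.Agent.H.MP_ab3f56_an
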