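import Pool.Agent.H.MP_ab3f56_an.C

set_option autoImplicit false

namespace Pool.Agent.H.MP_ab3f56_an

open MeasureTheory Filter Topology AddCircle

theorem spec_eq {E : Type} [NormedAddCommGroup E] [NormedSpace ℂ E] [CompleteSpace E]
    (S : E →L[ℂ] E) (h1 : ∀ x, ‖S x‖ ≤ ‖x‖) {d : ℕ → ℂ} (hd : DenseRange d)
    (h2 : ∀ i, d i ≠ 0 → ‖d i‖ < 1 → ∀ c : ℝ, 0 ≤ c → ∃ F : E, ‖F‖ = 1 ∧
      ∀ g, F = d i • g - S g → c < ‖g‖) : spectrum ℂ S = Metric.closedBall 0 1 := by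
  refine Set.Subset.antisymm (fun z hz => ?_) ?_
  · have n1 : ‖S‖ ≤ 1 := S.opNorm_le_bound zero_le_one fun f => by simpa using h1 f
    have n2 : ‖(1 : E →L[ℂ] E)‖ ≤ 1 := ContinuousLinearMap.norm_id_le
    exact mem_closedBall_zero_iff.2 ((spectrum.norm_le_norm_mul_of_mem hz).trans
      (mul_le_one₀ n1 (norm_nonneg _) n2))
  rw [← closure_ball (0 : ℂ) one_ne_zero]
  refine closure_minimal (((Dense.sdiff_singleton hd 0).open_subset_closure_inter
    Metric.isOpen_ball).trans (closure_minimal ?_ (spectrum.isClosed _))) (spectrum.isClosed _)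
  rintro _ ⟨b1, ⟨i, rfl⟩, b2⟩ hu
  obtain ⟨u, hu⟩ : IsUnit (algebraMap ℂ _ (d i) - S) := hu
  let R : E →L[ℂ] E := ↑u⁻¹
  obtain ⟨F, f1, f2⟩ := h2 i b2 (mem_ball_zero_iff.1 b1) _ (norm_nonneg R)
  have := congrArg (fun A : E →L[ℂ] E => A F) u.mul_inv
  rw [hu] at this
  have h3 := R.le_opNorm F
  rw [f1, mul_one] at h3
  exact (f2 _ this.symm).not_ge h3

variable {T : ℝ} [hT : Fact (0 < T)]

theorem lower (μ : Measure (AddCircle T)) [IsProbabilityMeasure μ]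
    (F g Sg : Lp ℂ 1 (@haarAddCircle T _)) (φ f : C(AddCircle T, ℂ)) (z : ℂ) (δ : ℝ)
    (hF : F =ᵐ[haarAddCircle] f) (g2 : F = z • g - Sg)
    (S3 : ∫ x, Sg x * φ x ∂haarAddCircle = ∫ x, g x * ∫ y, φ (x + y) ∂μ ∂haarAddCircle)
    (f4 : ∀ x, ‖∫ y, φ (x + y) ∂μ - z * φ x‖ ≤ δ) :
    ‖∫ t, f t * φ t ∂haarAddCircle‖ ≤ ‖g‖ * δ := by
  have I : ∀ (G : Lp ℂ 1 (@haarAddCircle T _)) (ψ : AddCircle T → ℂ), Continuous ψ →
      Integrable (fun x => G x * ψ x) haarAddCircle := fun G ψ hψ =>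
    (L1.integrable_coeFn G).mul_bdd (c := ‖(⟨ψ, hψ⟩ : C(_, ℂ))‖) hψ.aestronglyMeasurable
      (ae_of_all _ (⟨ψ, hψ⟩ : C(_, ℂ)).norm_coe_le_norm)
  have c1 : Continuous fun x => ∫ y, φ (x + y) ∂μ := by
    simpa using continuous_parametric_integral_of_continuous (μ := μ)
      (f := fun x y : AddCircle T => φ (x + y)) (by fun_prop) isCompact_univ
  have g3 : ∫ t, f t * φ t ∂haarAddCircle =
      ∫ t, g t * (z * φ t - ∫ y, φ (t + y) ∂μ) ∂haarAddCircle := by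
    simp only [mul_sub]
    rw [integral_sub (I g _ (by fun_prop)) (I g _ c1), ← S3,
      ← integral_sub (I g _ (by fun_prop)) (I _ _ φ.continuous)]
    refine integral_congr_ae ?_
    filter_upwards [hF, Lp.coeFn_sub (z • g) Sg, Lp.coeFn_smul z g] with x h1 h2 h3
    rw [← h1, g2, h2, Pi.sub_apply, h3]
    simp only [Pi.smul_apply, smul_eq_mul]
    ring
  rw [g3, L1.norm_eq_integral_norm, ← integral_mul_const]
  refine norm_integral_le_of_norm_le ((L1.integrable_coeFn _).norm.mul_const _)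
    (ae_of_all _ fun x => ?_)
  rw [norm_mul, norm_sub_rev]
  exact mul_le_mul_of_nonneg_left (f4 x) (norm_nonneg _)

end Pool.Agent.H.MP_ab3f56_an
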