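import Pool.Agent.H.MP_ab3f56_an.D

set_option autoImplicit false

namespace Pool.Agent.H.MP_ab3f56_an

open MeasureTheory Filter Topology AddCircle

/-- `H^1_0`: the `L^1` functions on the circle `ℝ / Tℤ` (normalised Lebesgue measure) whose
Fourier coefficients vanish at all `n ≤ 0`. -/
noncomputable def H10 (T : ℝ) [Fact (0 < T)] : Submodule ℂ (Lp ℂ 1 (@haarAddCircle T _)) where
  carrier := {f | ∀ n : ℤ, n ≤ 0 → fourierCoeff f n = 0}
  add_mem' := fun {f g} hf hg n hn => by
    rw [fourierCoeff_congr_ae (Lp.coeFn_add f g),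
      fourierCoeff.add (L1.integrable_coeFn f) (L1.integrable_coeFn g), Pi.add_apply, hf n hn,
      hg n hn, add_zero]
  zero_mem' := fun n _ => by
    rw [fourierCoeff_congr_ae (Lp.coeFn_zero _ _ _)]
    simp [fourierCoeff]
  smul_mem' := fun c f hf n hn => by
    rw [fourierCoeff_congr_ae (Lp.coeFn_smul c f), fourierCoeff.const_smul, hf n hn, smul_zero]

theorem closed (T : ℝ) [Fact (0 < T)] : IsClosed (H10 T : Set (Lp ℂ 1 (@haarAddCircle T _))) := by
  have : (H10 T : Set (Lp ℂ 1 (@haarAddCircle T _))) =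
      ⋂ n : ℤ, ⋂ _ : n ≤ 0, {f : Lp ℂ 1 (@haarAddCircle T _) | fourierCoeff f n = 0} := by
    ext f
    simp only [Set.mem_iInter]
    rfl
  rw [this]
  refine isClosed_iInter fun n => isClosed_iInter fun _ => isClosed_eq
    (LipschitzWith.of_dist_le_mul (K := 1) fun f g => ?_).continuous continuous_const
  rw [dist_eq_norm, dist_eq_norm, fourierCoeff, fourierCoeff,
    ← integral_sub ((L1.integrable_coeFn f).fourier_smul _) ((L1.integrable_coeFn g).fourier_smul _),
    NNReal.coe_one, one_mul, L1.norm_eq_integral_norm]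
  refine (norm_integral_le_integral_norm _).trans (le_of_eq (integral_congr_ae ?_))
  filter_upwards [Lp.coeFn_sub f g] with x hx
  rw [← smul_sub, norm_smul, nf, one_mul, hx, Pi.sub_apply]

theorem main (T : ℝ) [Fact (0 < T)] :
    ∃ μ : Measure (AddCircle T), IsProbabilityMeasure μ ∧
      Tendsto (fun n : ℤ => ∫ t, fourier (-n) t ∂μ) cofinite (𝓝 0) ∧
      ∃ S : H10 T →L[ℂ] H10 T,
        (∀ f : H10 T, ∀ᵐ x ∂haarAddCircle, (S f).1 x = ∫ y, f.1 (x - y) ∂μ) ∧
        spectrum ℂ S = Metric.closedBall 0 1 := by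
  classical
  let d := TopologicalSpace.denseSeq ℂ
  let q : ℕ → ℂ := fun i => if d i ≠ 0 ∧ ‖d i‖ < 1 then d i else 1 / 2
  obtain ⟨μ, hμ, hR, h⟩ := exists_mu (T := T) q
    (fun i => by simp only [q]; split_ifs with h; exacts [h.1, by norm_num])
    (fun i => by simp only [q]; split_ifs with h; exacts [h.2, by norm_num])
  obtain ⟨S, S1, S2, S3⟩ := exists_conv μ
  have hS : ∀ f ∈ H10 T, S f ∈ H10 T := fun f hf n hn => by
    have := hf n hn
    simp only [fourierCoeff, smul_eq_mul, mul_comm (fourier (-n) _)] at this ⊢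
    rw [S3]
    simp only [four_add, integral_const_mul, ← mul_assoc, integral_mul_const, this, zero_mul]
  have := (closed T).completeSpace_coe
  refine ⟨μ, hμ, hR, S.restrict hS, fun f => S2 f.1, spec_eq _ (fun f => S1 f.1)
    (TopologicalSpace.denseRange_denseSeq ℂ) fun i d0 d1 c hc => ?_⟩
  obtain ⟨φ, f, f1, f2, f3, f4⟩ := h i (1 / (4 * c + 1)) (by positivity)
  rw [show q i = d i from if_pos ⟨d0, d1⟩] at f4
  let F : Lp ℂ 1 (@haarAddCircle T _) := (ci f.continuous _).toL1 _
  have hF : F =ᵐ[haarAddCircle] f := Integrable.coeFn_toL1 _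
  refine ⟨⟨F, fun n hn => by rw [fourierCoeff_congr_ae hF, f1 n hn]⟩, ?_, fun g hg => ?_⟩
  · change ‖F‖ = 1
    rw [L1.norm_eq_integral_norm, ← f2]
    exact integral_congr_ae (hF.fun_comp norm)
  · have := lower μ F g.1 (S g.1) φ f _ _ hF (congrArg Subtype.val hg) (S3 _ _) f4
    rw [mul_one_div, le_div_iff₀ (by positivity)] at this
    change c < ‖g.1‖
    nlinarith

end Pool.Agent.H.MP_ab3f56_an
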